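import Pool.Agent.Helper85_Idx.Stmts

/-!
# Squad IDX, module ONE: the key step of the counting
-/

set_option autoImplicit false

namespace Pool.Agent.Idx.H15

open Pool.Agent.Idx

section Pos

variable (S : Setup) {V : Type}

theorem segw_length {m : ℕ} (h : V → Fin m → Bool) (g : Seg V S.T) :
    (segw S h g).length = slen S m g := by
  cases g with
  | pay e b => cases b <;> simp [segw, slen]
  | con u => rfl

theorem word_length {m : ℕ} (h : V → Fin m → Bool) (segs : List (Seg V S.T)) :
    (word S h segs).length = start S m segs segs.length := by
  unfold word start
  rw [List.length_flatten, List.map_map, List.take_length]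
  congr 1
  apply List.map_congr_left
  intro g _
  exact segw_length S h g

theorem start_cons (m : ℕ) (g : Seg V S.T) (segs : List (Seg V S.T)) (i : ℕ) :
    start S m (g :: segs) (i + 1) = slen S m g + start S m segs i := by
  simp [start]

theorem start_zero (m : ℕ) (segs : List (Seg V S.T)) : start S m segs 0 = 0 := by
  simp [start]

theorem word_cons {m : ℕ} (h : V → Fin m → Bool) (g : Seg V S.T) (segs : List (Seg V S.T)) :
    word S h (g :: segs) = segw S h g ++ word S h segs := by
  simp [word]

/-- the letters of the word -/
theorem word_get {m : ℕ} (h : V → Fin m → Bool) (segs : List (Seg V S.T)) :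
    ∀ (i r : ℕ) (g : Seg V S.T), segs[i]? = some g → r < slen S m g →
      (word S h segs)[start S m segs i + r]? = (segw S h g)[r]? := by
  induction segs with
  | nil => intro i r g hg; simp at hg
  | cons g0 segs ih =>
    intro i r g hg hr
    rw [word_cons]
    cases i with
    | zero =>
      simp only [List.getElem?_cons_zero, Option.some.injEq] at hg
      subst hg
      rw [start_zero, Nat.zero_add, List.getElem?_append_left]
      rw [segw_length]
      exact hr
    | succ i =>
      rw [List.getElem?_cons_succ] at hg
      rw [start_cons, List.getElem?_append_right (by rw [segw_length]; omega), segw_length,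
        show slen S m g0 + start S m segs i + r - slen S m g0 = start S m segs i + r by omega]
      exact ih i r g hg hr

theorem pos_exists (m : ℕ) (segs : List (Seg V S.T)) :
    ∀ q : ℕ, q < start S m segs segs.length →
      ∃ (i : ℕ) (g : Seg V S.T) (r : ℕ), segs[i]? = some g ∧ r < slen S m g ∧
        q = start S m segs i + r := by
  induction segs with
  | nil => intro q hq; simp [start] at hq
  | cons g0 segs ih =>
    intro q hq
    rw [List.length_cons, start_cons] at hq
    by_cases h1 : q < slen S m g0
    · exact ⟨0, g0, q, rfl, h1, by rw [start_zero, Nat.zero_add]⟩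
    · obtain ⟨i, g, r, h2, h3, h4⟩ := ih (q - slen S m g0) (by omega)
      refine ⟨i + 1, g, r, ?_, h3, ?_⟩
      · rw [List.getElem?_cons_succ]; exact h2
      · rw [start_cons]; omega

end Pos

section Slice

variable {T : Type}

theorem sl_get (w : List T) (s t k : ℕ) :
    (sl w s t)[k]? = if k < t - s then w[s + k]? else none := by
  unfold sl
  rw [List.getElem?_take]
  split_ifs with h
  · rw [List.getElem?_drop]
  · rfl

theorem sl_congr (w w' : List T) (s t : ℕ) (h : ∀ q, s ≤ q → q < t → w[q]? = w'[q]?) :
    sl w s t = sl w' s t := by
  apply List.ext_getElem?
  intro k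
  rw [sl_get, sl_get]
  split_ifs with h1
  · exact h (s + k) (by omega) (by omega)
  · rfl

theorem sl_split (w : List T) (s r t : ℕ) (h1 : s ≤ r) (h2 : r ≤ t) :
    sl w s t = sl w s r ++ sl w r t := by
  unfold sl
  have e : t - s = (r - s) + (t - r) := by omega
  rw [e, List.take_add, List.drop_drop]
  congr 3
  omega

end Slice

section Block

variable (S : Setup) {V : Type}

theorem idx_lt {p l j : ℕ} (hj : j < p) (y : Fin l) : j * l + y.val < p * l := by
  have h1 : (j + 1) * l ≤ p * l := Nat.mul_le_mul_right l hj
  have h2 := y.isLt
  have h3 : (j + 1) * l = j * l + l := by ring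
  omega

/-- the payload of a block -/
def bw {p l : ℕ} (h : V → Fin (p * l) → Bool) (e : V) (j : ℕ) (hj : j < p) : List Bool :=
  List.ofFn fun y : Fin l => h e ⟨j * l + y.val, idx_lt hj y⟩

/-- the letters of a payload segment -/
theorem pay_get {m : ℕ} (h : V → Fin m → Bool) (e : V) (b : Bool) (r : ℕ) (hr : r < m) :
    (segw S h (Seg.pay e b))[r]? = some (if b then S.ni (h e ⟨m - 1 - r, by omega⟩)
      else S.pl (h e ⟨r, hr⟩)) := by
  cases b with
  | false =>
    simp only [segw, List.getElem?_map, List.getElem?_ofFn, hr, dif_pos, Option.map_some,
      if_false, Bool.false_eq_true]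
  | true =>
    simp only [segw]
    rw [List.getElem?_reverse (by simpa using hr)]
    have h1 : m - 1 - r < m := by omega
    simp only [List.length_map, List.length_ofFn, List.getElem?_map, List.getElem?_ofFn, h1,
      dif_pos, Option.map_some, if_true]

/-- the word of a block -/
theorem block_word {p l : ℕ} (h : V → Fin (p * l) → Bool) (segs : List (Seg V S.T)) (i : ℕ)
    (e : V) (b : Bool) (hg : segs[i]? = some (Seg.pay e b)) (j : ℕ) (hj : j < p) :
    sl (word S h segs) (blk S p l segs i b j) (blk S p l segs i b j + l) =
      if b then ((bw h e j hj).map S.ni).reverse else (bw h e j hj).map S.pl := by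
  have hpj : (j + 1) * l ≤ p * l := Nat.mul_le_mul_right l hj
  have hj1 : (j + 1) * l = j * l + l := by ring
  apply List.ext_getElem?
  intro k
  rw [sl_get]
  have e1 : blk S p l segs i b j + l - blk S p l segs i b j = l := by omega
  rw [e1]
  by_cases hk : k < l
  · rw [if_pos hk]
    unfold blk
    cases b with
    | false =>
      simp only [Bool.false_eq_true, if_false]
      have hr : j * l + k < p * l := by omega
      rw [Nat.add_assoc, word_get S h segs i (j * l + k) _ hg hr, pay_get S h e false _ hr]
      simp [bw, List.getElem?_ofFn, hk]
    | true =>
      simp only [if_true]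
      have hpl : (p - 1 - j) * l + (j + 1) * l = p * l := by
        rw [← Nat.add_mul]
        congr 1
        omega
      have hr : (p - 1 - j) * l + k < p * l := by omega
      rw [Nat.add_assoc, word_get S h segs i _ _ hg hr, pay_get S h e true _ hr]
      rw [List.getElem?_reverse (by simpa [bw] using hk)]
      have h2 : l - 1 - k < l := by omega
      simp only [bw, if_true, List.length_map, List.length_ofFn, List.getElem?_map,
        List.getElem?_ofFn, h2, dif_pos, Option.map_some]
      congr 3
      apply Fin.ext
      show p * l - 1 - ((p - 1 - j) * l + k) = j * l + (l - 1 - k)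
      omega
  · rw [if_neg hk]
    symm
    rw [List.getElem?_eq_none]
    cases b <;> simp [bw] <;> omega

/-- outside of the two occurrences of a block the words agree -/
theorem agree {p l : ℕ} (h h' : V → Fin (p * l) → Bool) (segs : List (Seg V S.T)) (i i' : ℕ)
    (e : V) (b : Bool) (hT : Twice S segs) (hg : segs[i]? = some (Seg.pay e b))
    (hg' : segs[i']? = some (Seg.pay e (!b))) (j : ℕ) (hj : j < p)
    (hh : ∀ e' x, (e' ≠ e ∨ x.val < j * l ∨ (j + 1) * l ≤ x.val) → h' e' x = h e' x) (q : ℕ)
    (h1 : q < blk S p l segs i b j ∨ blk S p l segs i b j + l ≤ q)
    (h2 : q < blk S p l segs i' (!b) j ∨ blk S p l segs i' (!b) j + l ≤ q) :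
    (word S h segs)[q]? = (word S h' segs)[q]? := by
  by_cases hq : q < start S (p * l) segs segs.length
  · obtain ⟨a, g, r, ha, hr, rfl⟩ := pos_exists S (p * l) segs q hq
    rw [word_get S h segs a r g ha hr, word_get S h' segs a r g ha hr]
    cases g with
    | con u => rfl
    | pay e' b' =>
      have hr' : r < p * l := hr
      rw [pay_get S h e' b' r hr', pay_get S h' e' b' r hr']
      -- position of the occurrence
      have key : ∀ z : Fin (p * l), z.val = (if b' then p * l - 1 - r else r) →
          h' e' z = h e' z := by
        intro z hz
        apply hh
        by_cases he : e' = e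
        · right
          subst he
          by_contra hcon
          push Not at hcon
          obtain ⟨c1, c2⟩ := hcon
          have hpl : (p - 1 - j) * l + (j + 1) * l = p * l := by
            rw [← Nat.add_mul]
            congr 1
            omega
          have hj1 : (j + 1) * l = j * l + l := by ring
          -- the position lies in the block of this segment
          have hin : blk S p l segs a b' j ≤ start S (p * l) segs a + r ∧
              start S (p * l) segs a + r < blk S p l segs a b' j + l := by
            unfold blk
            cases b' with
            | false =>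
              simp only [Bool.false_eq_true, if_false] at hz ⊢
              omega
            | true =>
              simp only [if_true] at hz ⊢
              omega
          by_cases hb : b' = b
          · subst hb
            have := hT.uniq a i e' b' ha hg
            subst this
            omega
          · have hb' : b' = !b := by
              cases b <;> cases b' <;> simp_all
            subst hb'
            have := hT.uniq a i' e' (!b) ha hg'
            subst this
            omega
        · exact Or.inl he
      cases b' with
      | false =>
        simp only [Bool.false_eq_true, if_false]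
        rw [key ⟨r, hr'⟩ (by simp)]
      | true =>
        simp only [if_true]
        rw [key ⟨p * l - 1 - r, by omega⟩ (by simp)]
  · rw [List.getElem?_eq_none (by rw [word_length]; omega),
      List.getElem?_eq_none (by rw [word_length]; omega)]

theorem val_append {T G : Type} [Group G] (ev : T → G) (u w : List T) :
    val ev (u ++ w) = val ev u * val ev w := by
  simp [val]

theorem val_ni (w : List Bool) :
    val S.ev ((w.map S.ni).reverse) = (val S.ev (w.map S.pl))⁻¹ := by
  induction w with
  | nil => simp [val]
  | cons x w ih =>
    rw [List.map_cons, List.reverse_cons, val_append, ih]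
    simp only [val, List.map_cons, List.map_nil, List.prod_cons, List.prod_nil, mul_one,
      mul_inv_rev, S.inv]

theorem one : OneStmt := by
  intro S V p l segs h h' s t s' t' i i' e b j hT hst hst' hdis ht ht' hg hg' hj hs hbt ho ho' hh
    hv hv'
  have hlen : blk S p l segs i b j ≤ blk S p l segs i b j + l := Nat.le_add_right _ _
  -- the second interval
  have e2 : sl (word S h segs) s' t' = sl (word S h' segs) s' t' := by
    apply sl_congr
    intro q hq1 hq2
    apply agree S h h' segs i i' e b hT hg hg' j hj hh q
    · omega
    · omega
  -- the two parts of the first interval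
  have e3 : sl (word S h segs) s (blk S p l segs i b j) =
      sl (word S h' segs) s (blk S p l segs i b j) := by
    apply sl_congr
    intro q hq1 hq2
    apply agree S h h' segs i i' e b hT hg hg' j hj hh q
    · omega
    · omega
  have e4 : sl (word S h segs) (blk S p l segs i b j + l) t =
      sl (word S h' segs) (blk S p l segs i b j + l) t := by
    apply sl_congr
    intro q hq1 hq2
    apply agree S h h' segs i i' e b hT hg hg' j hj hh q
    · omega
    · omega
  have split : ∀ w : List S.T, sl w s t = sl w s (blk S p l segs i b j) ++
      (sl w (blk S p l segs i b j) (blk S p l segs i b j + l) ++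
        sl w (blk S p l segs i b j + l) t) := by
    intro w
    rw [← sl_split w _ _ _ hlen hbt, ← sl_split w _ _ _ hs (by omega)]
  have hv2 : val S.ev (sl (word S h' segs) s t) = val S.ev (sl (word S h segs) s t) := by
    rw [hv', ← e2, ← hv]
  rw [split (word S h segs), split (word S h' segs), ← e3, ← e4, val_append, val_append,
    val_append, val_append] at hv2
  have hv3 := mul_right_cancel (mul_left_cancel hv2)
  rw [block_word S h segs i e b hg j hj, block_word S h' segs i e b hg j hj] at hv3
  have hv4 : val S.ev ((bw h' e j hj).map S.pl) = val S.ev ((bw h e j hj).map S.pl) := by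
    cases b with
    | false => simpa using hv3
    | true =>
      simp only [if_true] at hv3
      rw [val_ni, val_ni] at hv3
      exact inv_injective hv3
  have hv5 : bw h' e j hj = bw h e j hj := by
    apply S.free
    simp only [val, List.map_map] at hv4
    exact hv4
  have hv6 : ∀ y : Fin l, h' e ⟨j * l + y.val, idx_lt hj y⟩ = h e ⟨j * l + y.val, idx_lt hj y⟩ := by
    intro y
    exact congrFun (List.ofFn_injective hv5) y
  funext e' x
  by_cases hx : e' ≠ e ∨ x.val < j * l ∨ (j + 1) * l ≤ x.val
  · exact hh e' x hx
  · push Not at hx
    obtain ⟨rfl, hx1, hx2⟩ := hx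
    have hj1 : (j + 1) * l = j * l + l := by ring
    have h3 := hv6 ⟨x.val - j * l, by omega⟩
    have h4 : (⟨j * l + (x.val - j * l), idx_lt hj ⟨x.val - j * l, by omega⟩⟩ : Fin (p * l)) = x := by
      apply Fin.ext
      show j * l + (x.val - j * l) = x.val
      omega
    rw [← h4]
    exact h3

end Block

end Pool.Agent.Idx.H15
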