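import Pool.Agent.Helper15_Idx.One

/-!
# Squad IDX, module TFD: the forests satisfy the hypotheses of the frame theorem
-/

set_option autoImplicit false

namespace Pool.Agent.Idx.H15

open Pool.Agent.Idx

/-- sum over an interval of positions -/
theorem sum_Ico_eq {T : Type} (ω : T → ℝ) (w : List T) (s t : ℕ) (hst : s ≤ t) :
    ∑ j ∈ Finset.Ico s t, (w[j]?).elim 0 ω = ((sl w s t).map ω).sum := by
  obtain ⟨n, rfl⟩ := Nat.exists_eq_add_of_le hst
  clear hst
  induction n generalizing s with
  | zero => simp [sl]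
  | succ n ih =>
    rw [show s + (n + 1) = s + n + 1 by ring, Finset.sum_Ico_succ_top (by omega), ih,
      sl_split w s (s + n) (s + n + 1) (by omega) (by omega), List.map_append, List.sum_append]
    congr 1
    have h1 : sl w (s + n) (s + n + 1) = (w[s + n]?).toList := by
      unfold sl
      rw [show s + n + 1 - (s + n) = 1 by omega, List.take_one, List.head?_drop]
    rw [h1]
    cases w[s + n]? <;> simp

theorem sum_range_eq {T : Type} (ω : T → ℝ) (w : List T) :
    ∑ j ∈ Finset.range w.length, (w[j]?).elim 0 ω = (w.map ω).sum := by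
  rw [Finset.range_eq_Ico, sum_Ico_eq ω w 0 w.length (Nat.zero_le _)]
  congr 2
  simp [sl]

theorem word_append (S : Setup) {V : Type} {m : ℕ} (h : V → Fin m → Bool)
    (a b : List (Seg V S.T)) : word S h (a ++ b) = word S h a ++ word S h b := by
  simp [word]

theorem zero_sum {T α : Type} (ω : T → ℝ) (f : α → T) (h : ∀ x, ω (f x) = 0) (l : List α) :
    ((l.map f).map ω).sum = 0 := by
  induction l with
  | nil => simp
  | cons a l ih => simp only [List.map_cons, List.sum_cons, h, ih, add_zero]

theorem pay_sum (S : Setup) {V : Type} {m : ℕ} (h : V → Fin m → Bool) (ω : S.T → ℝ)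
    (hp : ∀ x, ω (S.pl x) = 0) (hn : ∀ x, ω (S.ni x) = 0) (e : V) (b : Bool) :
    ((segw S h (Seg.pay e b)).map ω).sum = 0 := by
  cases b with
  | false => exact zero_sum ω S.pl hp _
  | true =>
    show ((((List.ofFn (h e)).map S.ni).reverse).map ω).sum = 0
    rw [List.map_reverse, List.sum_reverse]
    exact zero_sum ω S.ni hn _

theorem zw_sum {T : Type} (ω : T → ℝ) (z z' : T) (x : ℤ) :
    ((zw z z' x).map ω).sum = (x.natAbs : ℝ) * (if 0 ≤ x then ω z else ω z') := by
  unfold zw
  rw [List.map_replicate, List.sum_replicate, nsmul_eq_mul]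
  split_ifs <;> rfl

/-- letter weight of the word of a tree -/
theorem tree_sum (S : ZSetup) {V : Type} {m : ℕ} (h : V → Fin m → Bool) (ω : S.T → ℝ)
    (hp : ∀ x, ω (S.pl x) = 0) (hn : ∀ x, ω (S.ni x) = 0) (t : BT V) :
    ((word S.toSetup h (tsegs S.z S.z' t)).map ω).sum =
      ((leaves t).map (fun x : ℤ => (x.natAbs : ℝ) * (if 0 ≤ x then ω S.z else ω S.z'))).sum := by
  induction t with
  | leaf e x =>
    simp only [tsegs, leaves, word_cons, List.map_append, List.sum_append, List.map_cons,
      List.map_nil, List.sum_cons, List.sum_nil]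
    rw [pay_sum S.toSetup h ω hp hn, pay_sum S.toSetup h ω hp hn]
    simp only [segw]
    rw [zw_sum]
    simp [word]
  | node e l r ihl ihr =>
    simp only [tsegs, leaves, word_cons, word_append, List.map_append, List.sum_append]
    rw [ihl, ihr, pay_sum S.toSetup h ω hp hn, pay_sum S.toSetup h ω hp hn]
    simp [word]

theorem start_bound (S : Setup) {V : Type} (segs : List (Seg V S.T)) :
    ∃ C : ℕ, ∀ m, start S m segs segs.length ≤ segs.length * m + C := by
  induction segs with
  | nil => exact ⟨0, fun m => by simp [start]⟩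
  | cons g segs ih =>
    obtain ⟨C, hC⟩ := ih
    cases g with
    | pay e b =>
      refine ⟨C, fun m => ?_⟩
      rw [List.length_cons, start_cons]
      have h1 : slen S m (Seg.pay e b : Seg V S.T) = m := rfl
      have h2 := hC m
      rw [h1]
      have h3 : (segs.length + 1) * m = segs.length * m + m := by ring
      omega
    | con u =>
      refine ⟨C + u.length, fun m => ?_⟩
      rw [List.length_cons, start_cons]
      have h1 : slen S m (Seg.con u : Seg V S.T) = u.length := rfl
      have h2 := hC m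
      rw [h1]
      have h3 : (segs.length + 1) * m = segs.length * m + m := by ring
      omega

theorem tfd (hftw : FtwStmt) (hfval : FvalStmt) (hfcl : FclStmt) (hftb : FtbStmt)
    (htsum : TsumStmt) (htnod : TnodStmt) (htdis : TdisStmt) : TfdStmt := by
  intro S R p hR hp
  -- the threshold
  obtain ⟨d1, hd1⟩ : ∃ d1 : ℕ, ∀ d, d1 ≤ d → (2 / 3 : ℝ) ^ d * (8 * R) ≤ 1 := by
    have hR' : (0 : ℝ) < 8 * R := by
      have : (1 : ℝ) ≤ R := by exact_mod_cast hR
      linarith
    obtain ⟨d1, h1⟩ := exists_pow_lt_of_lt_one (show (0 : ℝ) < 1 / (8 * R) by positivity)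
      (show (2 / 3 : ℝ) < 1 by norm_num)
    refine ⟨d1, fun d hd => ?_⟩
    have h2 : (2 / 3 : ℝ) ^ d ≤ (2 / 3 : ℝ) ^ d1 :=
      pow_le_pow_of_le_one (by norm_num) (by norm_num) hd
    have h3 : (2 / 3 : ℝ) ^ d ≤ 1 / (8 * R) := h2.trans h1.le
    calc (2 / 3 : ℝ) ^ d * (8 * R) ≤ 1 / (8 * R) * (8 * R) :=
          mul_le_mul_of_nonneg_right h3 hR'.le
      _ = 1 := by field_simp
  refine ⟨max 1 d1, fun d hd => ?_⟩
  have hd0 : 1 ≤ d := (le_max_left _ _).trans hd
  have hdd : d1 ≤ d := (le_max_right _ _).trans hd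
  obtain ⟨-, -, ⟨hP, -⟩, -, ⟨hS0, -⟩, hlv, hlp, hlm⟩ := htsum d hd0
  have hQ : (0 : ℤ) < QQ d := by unfold QQ; positivity
  have hQr : (0 : ℝ) < (QQ d : ℝ) := by exact_mod_cast hQ
  have hPpos : (0 : ℤ) < wt (tp d) := lt_of_lt_of_le (by positivity) hP
  have hPr : (0 : ℝ) < (wt (tp d) : ℝ) := by exact_mod_cast hPpos
  have hPr' : (QQ d : ℝ) * 6 ^ d ≤ (wt (tp d) : ℝ) := by exact_mod_cast hP
  obtain ⟨C, hC⟩ := start_bound S.toSetup (tseg S d)
  have htomz : tom S d S.z = 1 / (wt (tp d) : ℝ) := by
    unfold tom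
    rw [if_pos S.vz]
  have htomz' : tom S d S.z' = 0 := by
    unfold tom
    rw [if_neg]
    rw [S.vz']
    norm_num
  have htompl : ∀ x, tom S d (S.pl x) = 0 := by
    intro x
    unfold tom
    rw [if_neg]
    rw [S.vp]
    norm_num
  have htomni : ∀ x, tom S d (S.ni x) = 0 := by
    intro x
    unfold tom
    rw [if_neg]
    rw [S.vn]
    norm_num
  have htom0 : ∀ x, 0 ≤ tom S d x := by
    intro x
    unfold tom
    split_ifs
    · positivity
    · exact le_rfl
  have htom1 : ∀ x, tom S d x ≤ 1 / (wt (tp d) : ℝ) := by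
    intro x
    unfold tom
    split_ifs
    · exact le_rfl
    · positivity
  -- the basic estimate
  have hbd : (2 * (QQ d : ℝ) * 4 ^ d) * (1 / (wt (tp d) : ℝ)) * (4 * R) ≤ 1 := by
    have h1 : (2 * (QQ d : ℝ) * 4 ^ d) * (1 / (wt (tp d) : ℝ)) ≤ 2 * (2 / 3 : ℝ) ^ d := by
      rw [mul_one_div, div_le_iff₀ hPr]
      have h2 : (2 : ℝ) * (2 / 3) ^ d * ((QQ d : ℝ) * 6 ^ d) = 2 * (QQ d : ℝ) * 4 ^ d := by
        have : (2 / 3 : ℝ) ^ d * 6 ^ d = 4 ^ d := by
          rw [← mul_pow]
          norm_num
        calc (2 : ℝ) * (2 / 3) ^ d * ((QQ d : ℝ) * 6 ^ d)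
            = 2 * (QQ d : ℝ) * ((2 / 3 : ℝ) ^ d * 6 ^ d) := by ring
          _ = _ := by rw [this]
      rw [← h2]
      exact mul_le_mul_of_nonneg_left hPr' (by positivity)
    have hR0 : (0 : ℝ) ≤ 4 * R := by positivity
    calc (2 * (QQ d : ℝ) * 4 ^ d) * (1 / (wt (tp d) : ℝ)) * (4 * R)
        ≤ 2 * (2 / 3 : ℝ) ^ d * (4 * R) := mul_le_mul_of_nonneg_right h1 hR0
      _ = (2 / 3 : ℝ) ^ d * (8 * R) := by ring
      _ ≤ 1 := hd1 d hdd
  have hmem : ∀ x ∈ ((forest d).map leaves).flatten, |(x : ℝ)| ≤ 2 * (QQ d : ℝ) * 4 ^ d := by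
    intro x hx
    have := (hlv x hx).2
    exact_mod_cast this
  have hBz : (2 * 3 ^ (2 ^ (d + 1) + 1) * 4 ^ d : ℕ) = ((2 * QQ d * 4 ^ d : ℤ)) := by
    unfold QQ
    push_cast
    ring
  refine ⟨(tseg S d).length * p + C + (tseg S d).length, ?_⟩
  refine ⟨?_, ?_, ?_, ?_, ?_, ?_, ?_, ?_, ?_, S.v1, S.vc, ?_, ?_⟩
  · -- twice
    intro l
    exact hftw S _ (forest d) (htnod d)
  · -- one
    intro l h
    have h1 := hfval S _ (forest d) (p * l) h
    rw [show tseg S d = fsegs S.z S.z' (forest d) from rfl, h1]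
    have h2 : ((forest d).map wt).sum = 0 := by
      simp only [forest, List.map_cons, List.map_nil, List.sum_cons, List.sum_nil]
      have : wt (BT.leaf (ename d 2 []) (-(wt (tp d) + wt (tm d)))) =
          -(wt (tp d) + wt (tm d)) := by
        simp [wt, leaves]
      rw [this]
      ring
    rw [h2, zpow_zero]
  · -- len
    intro l
    have h1 := hC (p * l)
    refine h1.trans ?_
    have e1 : ((tseg S d).length * p + C + (tseg S d).length) * (l + 1) =
        (tseg S d).length * (p * l) + C + ((tseg S d).length * p + C * l +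
          (tseg S d).length * l + (tseg S d).length) := by ring
    omega
  · -- num
    intro l
    omega
  · -- dist
    intro l hl
    exact hfcl S _ (forest d) p l hp hl (htnod d) (htdis d hd0) (fun x hx => (hlv x hx).1)
  · -- μ0
    intro l h j
    unfold tmu
    cases (word S.toSetup h (tseg S d))[j]? with
    | none => exact le_rfl
    | some x => exact htom0 x
  · -- μ1
    intro l h _
    have h1 : ∑ j ∈ Finset.range (word S.toSetup h (tseg S d)).length, tmu S d (p * l) h j
        = ((word S.toSetup h (tseg S d)).map (tom S d)).sum := by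
      rw [← sum_range_eq]
      rfl
    rw [h1]
    have h2 : tseg S d = tsegs S.z S.z' (tp d) ++ (tsegs S.z S.z' (tm d) ++
        tsegs S.z S.z' (BT.leaf (ename d 2 []) (-(wt (tp d) + wt (tm d))))) := by
      simp [tseg, fsegs, forest]
    rw [h2, word_append, word_append, List.map_append, List.map_append, List.sum_append,
      List.sum_append, tree_sum S h _ htompl htomni, tree_sum S h _ htompl htomni,
      tree_sum S h _ htompl htomni]
    have h3 : ((leaves (tp d)).map (fun x : ℤ => (x.natAbs : ℝ) *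
        (if 0 ≤ x then tom S d S.z else tom S d S.z'))).sum = 1 := by
      have h4 : (leaves (tp d)).map (fun x : ℤ => (x.natAbs : ℝ) *
          (if 0 ≤ x then tom S d S.z else tom S d S.z')) =
          (leaves (tp d)).map (fun x : ℤ => (x : ℝ) * (1 / (wt (tp d) : ℝ))) := by
        apply List.map_congr_left
        intro x hx
        have hx0 := hlp x hx
        rw [if_pos hx0.le, htomz]
        congr 1
        rw [Nat.cast_natAbs, abs_of_pos hx0]
      rw [h4, List.sum_map_mul_right]
      have h5 : ((leaves (tp d)).map (fun x : ℤ => (x : ℝ))).sum = (wt (tp d) : ℝ) := by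
        unfold wt
        push_cast
        rfl
      rw [h5]
      field_simp
    have h6 : ((leaves (tm d)).map (fun x : ℤ => (x.natAbs : ℝ) *
        (if 0 ≤ x then tom S d S.z else tom S d S.z'))).sum = 0 := by
      apply List.sum_eq_zero
      intro y hy
      rw [List.mem_map] at hy
      obtain ⟨x, hx, rfl⟩ := hy
      have hx0 := hlm x hx
      rw [if_neg (by omega), htomz', mul_zero]
    have h7 : ((leaves (BT.leaf (ename d 2 []) (-(wt (tp d) + wt (tm d))))).map
        (fun x : ℤ => (x.natAbs : ℝ) *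
        (if 0 ≤ x then tom S d S.z else tom S d S.z'))).sum = 0 := by
      apply List.sum_eq_zero
      intro y hy
      rw [List.mem_map] at hy
      obtain ⟨x, hx, rfl⟩ := hy
      simp only [leaves, List.mem_singleton] at hx
      rw [if_neg (by omega), htomz', mul_zero]
    rw [h3, h6, h7]
    norm_num
  · -- μt
    intro l h s t hl hst ht hbig
    have h1 : ∑ j ∈ Finset.Ico s t, tmu S d (p * l) h j =
        ((sl (word S.toSetup h (tseg S d)) s t).map (tom S d)).sum := by
      rw [← sum_Ico_eq _ _ _ _ hst]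
      rfl
    rw [h1]
    have h2 := hftb S _ (forest d) p l (tom S d)
      ((2 * (QQ d : ℝ) * 4 ^ d) * (1 / (wt (tp d) : ℝ))) h s t hp hl hst ht hbig htompl htomni
      (by positivity) (by
        intro x hx
        rw [htomz, abs_of_nonneg (show (0 : ℝ) ≤ 1 / (wt (tp d) : ℝ) by positivity)]
        exact mul_le_mul_of_nonneg_right (hmem x hx) (by positivity)) (by
        intro x _
        rw [htomz', abs_zero, mul_zero]
        positivity)
    have h3 := (le_abs_self _).trans h2
    have hR0 : (0 : ℝ) ≤ 4 * R := by positivity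
    exact (mul_le_mul_of_nonneg_right h3 hR0).trans hbd
  · -- μj
    intro l h j hl
    have h1 : tmu S d (p * l) h j ≤ 1 / (wt (tp d) : ℝ) := by
      unfold tmu
      cases (word S.toSetup h (tseg S d))[j]? with
      | none =>
        show (0 : ℝ) ≤ _
        positivity
      | some x => exact htom1 x
    have hR0 : (0 : ℝ) ≤ 4 * R := by positivity
    refine (mul_le_mul_of_nonneg_right h1 hR0).trans (le_trans ?_ hbd)
    apply mul_le_mul_of_nonneg_right _ hR0
    have h2 : (1 : ℝ) ≤ 2 * (QQ d : ℝ) * 4 ^ d := by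
      have h3 : (1 : ℝ) ≤ QQ d := by exact_mod_cast hQ
      have h4 : (1 : ℝ) ≤ 4 ^ d := one_le_pow₀ (by norm_num)
      nlinarith
    have h5 : (0 : ℝ) ≤ 1 / (wt (tp d) : ℝ) := by positivity
    nlinarith
  · -- B1
    exact Nat.one_le_iff_ne_zero.2 (by positivity)
  · -- vt
    intro l h s t hl hst ht hbig
    have h2 := hftb S _ (forest d) p l (fun x => ((S.v x : ℤ) : ℝ))
      (2 * (QQ d : ℝ) * 4 ^ d) h s t hp hl hst ht hbig
      (fun x => by rw [S.vp]; norm_num) (fun x => by rw [S.vn]; norm_num)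
      (by positivity) (by
        intro x hx
        rw [S.vz]
        simpa using hmem x hx) (by
        intro x hx
        rw [S.vz']
        simpa using hmem x hx)
    have h3 : (((sl (word S.toSetup h (fsegs S.z S.z' (forest d))) s t).map
        (fun x => ((S.v x : ℤ) : ℝ))).sum) =
        ((vs S.v (sl (word S.toSetup h (tseg S d)) s t) : ℤ) : ℝ) := by
      unfold vs
      rw [Int.cast_list_sum, List.map_map]
      rfl
    rw [h3] at h2
    have h4 : |vs S.v (sl (word S.toSetup h (tseg S d)) s t)| ≤ 2 * QQ d * 4 ^ d := by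
      exact_mod_cast h2
    rw [hBz]
    exact h4

end Pool.Agent.Idx.H15
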